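import Mathlib

namespace Pool.Agent.H.MP_a3e24b_co
open Finset

section
variable {G : Type} [AddCommGroup G] [Fintype G] [DecidableEq G] (ν : G → ℕ)

/-- size of the ball of radius `r` -/
def b (r : ℕ) : ℕ := (univ.filter fun u => ν u ≤ r).card

lemma cnt (Y : Finset G) (r : ℕ) :
    ∑ c, ((Y.filter fun u => ν (u - c) ≤ r).card : ℝ) = Y.card * b ν r := by
  norm_cast
  simp only [card_filter]
  rw [sum_comm, ← smul_eq_mul, ← sum_const]
  refine sum_congr rfl fun u _ => ?_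
  rw [b, card_filter]
  exact (Equiv.subLeft u).sum_comp fun c => if ν c ≤ r then 1 else 0

variable {ν} (hs : ∀ u v, ν (u + v) ≤ ν u + ν v) (hn : ∀ u, ν (-u) = ν u) (h0 : ν 0 = 0)
  {R s : ℕ} {p : ℝ} (hp : p * b ν (R + s) ≤ b ν R)
include hs hn h0 hp

lemma cluster (Y : Finset G) : ∃ A ⊆ Y, p * Y.card ≤ A.card ∧ ∃ l : G → G,
    (∀ u ∈ A, ν (u - l u) ≤ R) ∧ ∀ u ∈ A, ∀ v ∈ A, ν (u - v) ≤ s → l u = l v := by
  induction Y using Finset.strongInduction with
  | H Y ih =>
  rcases Y.eq_empty_or_nonempty with rfl | ⟨y, hy⟩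
  · exact ⟨∅, by simp, by simp, id, by simp, by simp⟩
  obtain ⟨c, c1, c2⟩ : ∃ c, (Y.filter fun u => ν (u - c) ≤ R + s).Nonempty ∧
      p * (Y.filter fun u => ν (u - c) ≤ R + s).card ≤ (Y.filter fun u => ν (u - c) ≤ R).card := by
    by_contra hc
    push Not at hc
    have := sum_lt_sum (s := univ) (f := fun c => ((Y.filter fun u => ν (u - c) ≤ R).card : ℝ))
      (g := fun c => p * (Y.filter fun u => ν (u - c) ≤ R + s).card) (fun c _ => ?_)
      ⟨y, mem_univ _, hc y ⟨y, by simp [hy, h0]⟩⟩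
    · rw [← mul_sum, cnt, cnt, mul_left_comm] at this
      exact absurd (mul_le_mul_of_nonneg_left hp (Nat.cast_nonneg _)) (not_le.2 this)
    rcases (Y.filter fun u => ν (u - c) ≤ R + s).eq_empty_or_nonempty with e | e
    · rw [e, filter_eq_empty_iff.2 fun u hu h => filter_eq_empty_iff.1 e hu (by omega)]
      simp
    · exact (hc c e).le
  obtain ⟨A, a1, a2, l, a3, a4⟩ := ih (Y.filter fun u => ¬ ν (u - c) ≤ R + s) (by
    obtain ⟨x, hx⟩ := c1
    exact filter_ssubset.2 ⟨x, (mem_filter.1 hx).1, not_not.2 (mem_filter.1 hx).2⟩)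
  have a5 : ∀ u ∈ A, R + s < ν (u - c) := fun u hu => not_le.1 (mem_filter.1 (a1 hu)).2
  have a6 : ∀ u v, u ∈ A → ν (v - c) ≤ R → s < ν (u - v) := fun u v hu hv => by
    have := hs (u - v) (v - c)
    rw [sub_add_sub_cancel] at this
    have := a5 u hu
    omega
  refine ⟨(Y.filter fun u => ν (u - c) ≤ R) ∪ A, union_subset (filter_subset _ _)
    (a1.trans (filter_subset _ _)), ?_, fun u => if u ∈ A then l u else c, fun u hu => ?_,
    fun u hu v hv h => ?_⟩
  · rw [card_union_of_disjoint (disjoint_left.2 fun u h hu => by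
      have := a5 u hu
      have := (mem_filter.1 h).2
      omega), ← card_filter_add_card_filter_not (s := Y) fun u => ν (u - c) ≤ R + s]
    push_cast
    linarith
  · dsimp only
    split_ifs with a
    exacts [a3 u a, (mem_filter.1 ((mem_union.1 hu).resolve_right a)).2]
  · by_cases a : u ∈ A <;> by_cases a' : v ∈ A <;> simp only [a, a', if_true, if_false]
    · exact a4 u a v a' h
    · exact absurd (a6 u v a (mem_filter.1 ((mem_union.1 hv).resolve_right a')).2) (by omega)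
    · have := a6 v u a' (mem_filter.1 ((mem_union.1 hu).resolve_right a)).2
      rw [← hn, neg_sub] at this
      omega

lemma colour (p1 : p ≤ 1) (N : ℕ) : ∃ (U : Finset G) (c : G → ℕ) (l : G → G),
    (U.card : ℝ) ≤ (1 - p) ^ N * Fintype.card G ∧ (∀ u ∉ U, c u < N ∧ ν (u - l u) ≤ R) ∧
      ∀ u ∉ U, ∀ v ∉ U, c u = c v → ν (u - v) ≤ s → l u = l v := by
  induction N with
  | zero => exact ⟨univ, fun _ => 0, id, by simp, by simp, by simp⟩
  | succ N ih =>
    obtain ⟨U, c, l, u1, u2, u3⟩ := ih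
    obtain ⟨A, a1, a2, l', a3, a4⟩ := cluster hs hn h0 hp U
    have k : ∀ u ∉ U \ A, u ∉ A → u ∉ U := fun u hu a h => hu (mem_sdiff.2 ⟨h, a⟩)
    refine ⟨U \ A, fun u => if u ∈ A then N else c u, fun u => if u ∈ A then l' u else l u, ?_,
      fun u hu => ?_, fun u hu v hv => ?_⟩
    · rw [card_sdiff_of_subset a1, Nat.cast_sub (card_le_card a1), pow_succ', mul_assoc]
      nlinarith [mul_le_mul_of_nonneg_left u1 (sub_nonneg.2 p1)]
    · by_cases a : u ∈ A <;> simp only [a, if_true, if_false]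
      exacts [⟨by omega, a3 u a⟩, ⟨(u2 u (k u hu a)).1.trans (by omega), (u2 u (k u hu a)).2⟩]
    · by_cases a : u ∈ A <;> by_cases a' : v ∈ A <;> simp only [a, a', if_true, if_false]
      · exact fun _ => a4 u a v a'
      · exact fun e => absurd (u2 v (k v hv a')).1 (by omega)
      · exact fun e => absurd (u2 u (k u hu a)).1 (by omega)
      · exact u3 u (k u hu a) v (k v hv a')
end

/-- the l1 norm of the discrete torus -/
def nu {n M : ℕ} (u : Fin n → ZMod M) : ℕ := ∑ i, (u i).valMinAbs.natAbs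

lemma up {M : ℕ} [NeZero M] (z : ℤ) : (z : ZMod M).valMinAbs.natAbs ≤ z.natAbs :=
  ZMod.natAbs_min_of_le_div_two M _ _ (ZMod.coe_valMinAbs _) (ZMod.natAbs_valMinAbs_le _)

lemma ball {n M : ℕ} [NeZero M] (t : ℝ) (t0 : 0 ≤ t) (t1 : t < 1) (r : ℕ) :
    b (nu (n := n) (M := M)) r * t ^ r ≤ (2 / (1 - t)) ^ n := by
  have g : ∑ a : ZMod M, t ^ a.val ≤ (1 - t)⁻¹ := by
    rw [← sum_image (f := fun j => t ^ j) fun a _ b _ e => ZMod.val_injective M e]
    exact sum_le_hasSum _ (fun _ _ => by positivity) (hasSum_geometric_of_lt_one t0 t1)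
  have g2 : ∑ a : ZMod M, t ^ a.valMinAbs.natAbs ≤ 2 / (1 - t) := by
    have := Equiv.sum_comp (Equiv.neg (ZMod M)) fun a : ZMod M => t ^ a.val
    refine (sum_le_sum (g := fun a : ZMod M => t ^ a.val + t ^ (-a).val) fun a _ => ?_).trans ?_
    · rw [ZMod.valMinAbs_natAbs_eq_min, ZMod.neg_val]
      split_ifs with h
      · simp [h]
      · rcases min_choice a.val (M - a.val) with e | e <;> rw [e] <;> simp <;> positivity
    · rw [sum_add_distrib, div_eq_mul_inv]
      simp only [Equiv.neg_apply] at this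
      linarith
  calc _ = ∑ u ∈ univ.filter fun u : Fin n → ZMod M => nu u ≤ r, t ^ r := by simp [b]
    _ ≤ ∑ u ∈ univ.filter fun u : Fin n → ZMod M => nu u ≤ r, t ^ nu u :=
      sum_le_sum fun u hu => pow_le_pow_of_le_one t0 t1.le (mem_filter.1 hu).2
    _ ≤ ∑ u : Fin n → ZMod M, t ^ nu u :=
      sum_le_sum_of_subset_of_nonneg (filter_subset _ _) fun _ _ _ => by positivity
    _ = (∑ a : ZMod M, t ^ a.valMinAbs.natAbs) ^ n := by
      rw [← Fin.prod_const, prod_univ_sum]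
      simp [nu, prod_pow_eq_pow_sum]
    _ ≤ _ := pow_le_pow_left₀ (by positivity) g2 n

lemma scale (q : ℝ) (hq : 1 < q) : ∃ J, ∀ n M : ℕ, 0 < n → ∀ [NeZero M], ∃ j < J,
    (q ^ n)⁻¹ * b (nu (n := n) (M := M)) (2 * n * j + 2 * n) ≤ b (nu (n := n) (M := M)) (2 * n * j) := by
  obtain ⟨t, ht⟩ : ∃ t, t = (q + 1) / (2 * q) := ⟨_, rfl⟩
  have t0 : 0 ≤ t := by rw [ht]; positivity
  have t1 : t < 1 := by rw [ht, div_lt_one (by positivity)]; linarith
  have w : 1 < t ^ 2 * q := by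
    rw [ht]; field_simp; nlinarith
  obtain ⟨J, hJ⟩ := pow_unbounded_of_one_lt (2 / (1 - t)) w
  refine ⟨J, fun n M hn _ => ?_⟩
  by_contra hc
  push Not at hc
  have k : ∀ j ≤ J, (q ^ n) ^ j ≤ b (nu (n := n) (M := M)) (2 * n * j) := by
    intro j
    induction j with
    | zero => exact fun _ => by simpa [b] using ⟨0, by simp [nu]⟩
    | succ j ih =>
      intro hj
      have := hc j hj
      rw [lt_inv_mul_iff₀ (by positivity)] at this
      rw [pow_succ', mul_add, mul_one]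
      exact (mul_le_mul_of_nonneg_left (ih (by omega)) (by positivity)).trans this.le
  have := (mul_le_mul_of_nonneg_right (k J le_rfl) (pow_nonneg t0 _)).trans (ball t t0 t1 _)
  have h2 := pow_lt_pow_left₀ hJ (div_nonneg two_pos.le (by linarith)) hn.ne'
  refine absurd (this.trans_lt h2) (not_lt.2 (le_of_eq ?_))
  ring

theorem main (ε : ℝ) (hε : 0 < ε) : ∃ k : ℕ, ∀ η : ℝ, 0 < η → ∃ N : ℕ, ∀ n : ℕ, N ≤ n →
      ∃ m : ℕ, (m : ℝ) ≤ (1 + ε + η) ^ n ∧
        ∃ c : (Fin n → ℝ) → Fin m,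
          ∀ f : Fin (k + 1) → (Fin n → ℝ),
            (∀ i j : Fin (k + 1),
              ∑ t : Fin n, |f i t - f j t| = |((i : ℕ) : ℝ) - ((j : ℕ) : ℝ)|) →
            ∃ i j : Fin (k + 1), c (f i) ≠ c (f j) := by
  obtain ⟨q, hq⟩ : ∃ q, q = 1 + ε := ⟨_, rfl⟩
  have q1 : 1 < q := by linarith
  obtain ⟨J, hJ⟩ := scale q q1
  refine ⟨4 * J, fun η hη => ?_⟩
  obtain ⟨N, hN⟩ := Filter.eventually_atTop.1 ((tendsto_pow_const_div_const_pow_of_one_lt 2
    (show 1 < (q + η) / q by rw [one_lt_div (by linarith)]; linarith)).eventually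
    (gt_mem_nhds (show (0 : ℝ) < 1 / (8 * J + 3) by positivity)))
  refine ⟨N + 1, fun n hn => ?_⟩
  obtain ⟨M, hM⟩ : ∃ M, M = 2 * (4 * J * n + 1) := ⟨_, rfl⟩
  have : NeZero M := ⟨by omega⟩
  have n1 : (1 : ℝ) ≤ n := by exact_mod_cast (by omega : 1 ≤ n)
  obtain ⟨j, hj, hb⟩ := hJ n M (by omega)
  have Q1 : 1 ≤ q ^ n := one_le_pow₀ q1.le
  have hs : ∀ u v : Fin n → ZMod M, nu (u + v) ≤ nu u + nu v := fun u v => by
    rw [nu, nu, nu, ← sum_add_distrib]
    exact sum_le_sum fun i _ => (ZMod.natAbs_valMinAbs_add_le _ _).trans (Int.natAbs_add_le _ _)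
  have hn' : ∀ u : Fin n → ZMod M, nu (-u) = nu u := fun u =>
    sum_congr rfl fun i _ => ZMod.natAbs_valMinAbs_neg _
  obtain ⟨U, c, l, u1, u2, u3⟩ := colour hs hn' (by simp [nu]) hb (inv_le_one_of_one_le₀ Q1)
    ⌈q ^ n * (M * n)⌉₊
  have hU : U = ∅ := by
    rw [← card_eq_zero, ← Nat.lt_one_iff, ← Nat.cast_lt (α := ℝ), Nat.cast_one]
    refine u1.trans_lt ?_
    have a := pow_le_pow_left₀ (sub_nonneg.2 (inv_le_one_of_one_le₀ Q1))
      (Real.one_sub_le_exp_neg (q ^ n)⁻¹) ⌈q ^ n * (M * n)⌉₊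
    have a2 : Real.exp (-(q ^ n)⁻¹) ^ ⌈q ^ n * (M * n)⌉₊ ≤ Real.exp (-M) ^ n := by
      rw [← Real.exp_nat_mul, ← Real.exp_nat_mul, Real.exp_le_exp, mul_neg, mul_neg, neg_le_neg_iff,
        le_mul_inv_iff₀ (by positivity)]
      exact le_trans (le_of_eq (by ring)) (Nat.le_ceil _)
    have a3 : Real.exp (-M) * M < 1 := by
      rw [Real.exp_neg, inv_mul_lt_iff₀ (Real.exp_pos _)]
      linarith [Real.add_one_le_exp (M : ℝ)]
    refine (mul_le_mul_of_nonneg_right (a.trans a2) (Nat.cast_nonneg _)).trans_lt ?_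
    simp only [Fintype.card_pi, ZMod.card, prod_const, card_univ, Fintype.card_fin, Nat.cast_pow,
      ← mul_pow]
    exact pow_lt_one₀ (by positivity) a3 (by omega)
  subst hU
  let g : (Fin n → ℝ) → Fin n → ZMod M := fun x i => (⌊x i * n⌋ : ℤ)
  have fl : ∀ x y : ℝ, |((⌊x * n⌋ - ⌊y * n⌋).natAbs : ℝ) - n * abs (x - y)| ≤ 1 := fun x y => by
    rw [Nat.cast_natAbs, ← abs_of_nonneg (a := (n : ℝ)) (by positivity), ← abs_mul, Int.cast_abs,
      abs_of_nonneg (a := (n : ℝ)) (by positivity)]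
    refine (abs_abs_sub_abs_le_abs_sub _ _).trans (abs_le.2 ?_)
    push_cast
    constructor <;> linarith [Int.floor_le (x * n), Int.floor_le (y * n),
      Int.lt_floor_add_one (x * n), Int.lt_floor_add_one (y * n)]
  refine ⟨_, ?_, fun x => ⟨c (g x), (u2 _ (by simp)).1⟩, fun f hf => ?_⟩
  · have a := hN n (by omega)
    rw [div_lt_div_iff₀ (by positivity) (by positivity), one_mul, div_pow,
      lt_div_iff₀ (by positivity)] at a
    have a2 := (Nat.ceil_lt_add_one (show 0 ≤ q ^ n * (M * n) by positivity)).le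
    rw [← hq]
    refine a2.trans (le_trans ?_ a.le)
    rw [hM]
    push_cast
    have : (0 : ℝ) ≤ J := by positivity
    nlinarith [mul_le_mul Q1 (mul_le_mul n1 n1 zero_le_one (by linarith)) (by norm_num) (by linarith),
      mul_le_mul_of_nonneg_left n1 (show 0 ≤ q ^ n * n by positivity)]
  by_contra hc
  push Not at hc
  have st : ∀ i : Fin (4 * J + 1), l (g (f i)) = l (g (f 0)) := by
    intro i
    induction i using Fin.induction with
    | zero => rfl
    | succ i ih =>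
      refine (u3 _ (by simp) _ (by simp) (congrArg Fin.val (hc _ _)) ?_).trans ih
      have a := hf i.succ i.castSucc
      rw [← Nat.cast_le (α := ℝ)]
      calc _ ≤ ∑ t, (n * |f i.succ t - f i.castSucc t| + 1) := by
            rw [nu, Nat.cast_sum]
            refine sum_le_sum fun t _ => ?_
            have a1 := (abs_le.1 (fl (f i.succ t) (f i.castSucc t))).2
            have a2 := (Nat.cast_le (α := ℝ)).2 (up (M := M)
              (⌊f i.succ t * n⌋ - ⌊f i.castSucc t * n⌋))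
            rw [Int.cast_sub] at a2
            exact a2.trans (by linarith)
        _ = _ := by rw [sum_add_distrib, ← mul_sum, a]; simp; ring
  have a := hf (Fin.last _) 0
  have a1 := hs (g (f (Fin.last _)) - l (g (f 0))) (-(g (f 0) - l (g (f 0))))
  have a2 := (u2 (g (f (Fin.last _))) (by simp)).2
  have a3 := (u2 (g (f 0)) (by simp)).2
  rw [st] at a2
  rw [hn', ← sub_eq_add_neg, sub_sub_sub_cancel_right] at a1
  simp only [Fin.val_last, Fin.val_zero, Nat.cast_zero, sub_zero, Nat.abs_cast] at a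
  have a4 : ∑ t, (n * |f (Fin.last _) t - f 0 t| - 1) ≤ (nu (g (f (Fin.last _)) - g (f 0)) : ℝ) := by
    rw [nu, Nat.cast_sum]
    refine sum_le_sum fun t _ => ?_
    have b1 := abs_le.1 (fl (f (Fin.last _) t) (f 0 t))
    have b2 := single_le_sum (f := fun t => |f (Fin.last _) t - f 0 t|) (fun _ _ => abs_nonneg _)
      (mem_univ t)
    have b3 := (Nat.cast_le (α := ℝ)).2 (ZMod.natAbs_min_of_le_div_two M
      (⌊f (Fin.last _) t * n⌋ - ⌊f 0 t * n⌋) _ (ZMod.coe_valMinAbs _).symm (by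
        rw [hM, Nat.mul_div_cancel_left _ two_pos, ← Nat.cast_le (α := ℝ)]
        rw [a] at b2
        push_cast at b2 ⊢
        nlinarith))
    rw [Int.cast_sub] at b3
    exact le_trans (by linarith) b3
  rw [sum_sub_distrib, ← mul_sum, a] at a4
  have a5 : ((nu (g (f (Fin.last _)) - g (f 0)) : ℕ) : ℝ) ≤ (2 * n * j + 2 * n * j : ℕ) := by
    exact_mod_cast (by omega)
  have a6 : (j : ℝ) + 1 ≤ J := by exact_mod_cast hj
  simp at a4 a5
  nlinarith

end Pool.Agent.H.MP_a3e24b_co
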